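import Mathlib
import Pool.Agent.H496.R9.Top

/-!
# The density hypothesis for generic forms on all classical groups, over all global fields

`R` is a commutative topological ring with an involution (possibly trivial), `O ⊂ R` a discrete subring, for instance
`(R, O) = (K_∞, 𝓞_K)`, `(∏_{v ∈ S} K_v, 𝓞_{K,S})` or `(𝔸_K, K)` for a global field `K` (for unitary groups `K` is a
quadratic extension and the involution its conjugation). `M` is a free `R`-module of rank `m` with an `ε`-hermitian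
form `h`, the orthogonal sum of `r` hyperbolic planes `⟨e_i, f_i⟩` and of a space `V_0`, and `H` is a closed group of
isometries of `M` which contains the Eichler transformations. So `H` is a symplectic, orthogonal or unitary group of
any rank; it is quasi-split if `dim V_0 ≤ 2` (`V_0 = 0` in the symplectic case, `dim V_0 ≤ 1` in the unitary case).

`U = N_{r-1} ⋯ N_0` is the unipotent radical of the Borel subgroup (stabilizer of the flag `e_0, e_1, …`), where `N_k` is
the unipotent radical (abelian or a Heisenberg group) of the stabilizer of `e_{r-k-1}` in the isometry group `S_{k+1}` of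
`V_{k+1}`, and `ψ(u) = χ(∑_{i<r-1} μ_i h(e_{i+1}, u f_i) + μ_{r-1} h(v₀, u f_{r-1}))` is a generic character.

`Γ ⊂ H` is discrete with entries in `O`, contains the integral unipotent elements, and **only the last row is
restricted**: the entries `c_j = h(e_0, γ b_j)` are `0` or of size `≥ Q_j` for `j < m - 1`. For instance
`Γ = {γ : c_j ∈ 𝔮 (0 < j < m - 1), c_0 ∈ 𝔮²}` with `Q_j = N𝔮`, `Q_0 = N𝔮²`. (For orthogonal groups `c_0 ∈ 𝔮²` follows from
the other conditions, up to a factor `2`.)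

Let `f_1, …, f_s` be orthonormal functions on `Γ \ H` (with a nebentypus `ϑ`) which are eigenfunctions of the convolution
with a test function `κ` supported in the compact set `C`, `f_j * κ = Λ_j f_j`, and let
`W_j(g) = ∫_{(Γ ∩ U) \ U} ψ(u) f_j(ug) du` be the Whittaker coefficients.

**Theorem.** Assume that the last rows `c` of the elements of `g C C⁻¹ g⁻¹` satisfy `N(c_j) < Q_j` for `j < m - 1` and
`N(c_{m-1} - 1) < 1`.

1. `∑_j |Λ_j W_j(g)|² ≤ vol((Γ ∩ U) \ U) ∫_U ψ(u)⁻¹ (κ^* * κ)(g⁻¹ u g) du`: of the Kuznetsov formula only the identity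
  term remains.
2. For `tg` instead of `g`, where `t` is an element of the torus, this is at most `δ(t) B` with
  `B = vol((Γ ∩ U) \ U) ‖κ‖² vol(g C C⁻¹ g⁻¹ ∩ U)`, which does not depend on `t` and `ψ`.
3. (Density.) Let `W_j(t_l g) = δ(t_l)^{1/2} (h_l(α_j) - τ h_{l-2}(α_j)) w_j` for `K - n ≤ l ≤ K`, with `α_j ∈ ℂ^{n+1}`. Then
  for `A > 0`, `τ ≤ A²`:
  `(1 - τ/A²)² ∑_{j : max_i |α_{j,i}| ≥ A} |Λ_j w_j|² ≤ ((1 + A)^n / A^K)² B`.

The formula in 3 is the formula of Casselman and Shalika at a place `𝔭` of norm `q` where the group, `ψ` and the `f_j` are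
unramified, for `t_l e_0 = ϖ^l e_0`, `t_l f_0 = ϖ^{-l} f_0` (and `t_l = 1` on `V_{r-1}`), where `α_j` are the `n + 1` standard
Satake parameters: the character of highest weight `l ε_1` of the dual group is `h_l` for `SO_{2r+1}` (`n + 1 = 2r`) and
`h_l - h_{l-2}` for `SO_{2r}` (`n + 1 = 2r`) and `Sp_{2r}` (`n + 1 = 2r + 1`); for unitary groups and a split place `𝔭` it
is `h_l` (`n + 1 = m`). The condition on the last row is then `q^l < c N𝔮`, where `c` depends only on `g` and on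
the archimedean part of `κ`. So with `A = q^σ` the weighted number of the generic forms with `max |α_{j,i}| ≥ q^σ` is
`≪ (N𝔮)^{-2σ}`, compared to `≪ 1` for all forms. Since the index of `Γ` is `N𝔮^{2r-1}` for `SO_{2r+1}`, `N𝔮^{2r-2}` for
`SO_{2r}`, `N𝔮^{2r}` for `Sp_{2r}` (up to `N𝔮^{o(1)}`), and the trivial representation has `σ = r - 1/2`, `r - 1`, `r`,
this is in all cases (also for unitary groups) exactly the bound `vol^{1 - σ/σ_{triv}}` of the density hypothesis of Sarnak.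

Proof: Poincaré series. The last row of `γ` is `(0, …, 0, 1)` by the product formula (`N ≥ 1` on `O ∖ 0`), so
`γ = β s` with `β ∈ Γ ∩ N_{r-1}`, `s ∈ Γ ∩ S_{r-1}`. The sum over `β` unfolds the integral over `N_{r-1}`, and a character
sum over `(Γ ∩ N_{r-1}) \ N_{r-1}` remains which vanishes unless `s` fixes `e_1`; so the irrelevant cells disappear one after
the other and no Kloosterman sums occur. The induction is done for general towers of unipotent groups (`IsTower`).
-/

set_option autoImplicit false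

namespace Pool.Agent.Results.MP_08cfa9_nt.DensityClassical

open MeasureTheory Pool.Agent.H496.R9
open scoped Classical

theorem result
    -- the ring `R` with involution, the module `M` with the form `h`, and the group `H` of isometries
    {R M H : Type*} [CommRing R] [StarRing R] [TopologicalSpace R] [IsTopologicalRing R] [T2Space R]
    [AddCommGroup M] [Module R M] [Group H] [TopologicalSpace H] [IsTopologicalGroup H] [SecondCountableTopology H]
    [T2Space H] [MeasurableSpace H] [BorelSpace H] (ε : R) (h : M → M → R) (hh : IsForm ε h) (m r : ℕ) (h0r : 0 < r)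
    (b d : ℕ → M) (hb : IsBasis ε h m r b d) (ρ : H →* (M →ₗ[R] M)) (hr : IsRep ε h m r b d ρ)
    (v₀ : M) (hv : IsEnd h m r b v₀ ρ)
    -- the arithmetic group `Γ`
    (O : Subring R) (N : R → ℝ) (Q : ℕ → ℝ) (Γ : Subgroup H) [Countable Γ] (hΓ : IsLev ε h m r b d v₀ ρ O Γ N Q)
    -- the measures of the unipotent groups
    (ν : ℕ → Measure H) [∀ k, SigmaFinite (ν k)] [∀ k, IsFiniteMeasureOnCompacts (ν k)] (D : ℕ → Set H)
    (hν : IsMeas h m r b ρ Γ ν D)
    -- the character, the forms and the test function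
    (χ : AddChar R Circle) (hχ : Continuous χ)
    (vol : Measure H) [SigmaFinite vol] [IsFiniteMeasureOnCompacts vol] [vol.IsMulLeftInvariant]
    (ϑ : Γ →* Circle) (hϑ : ∀ γ : Γ, ρ γ (b 0) = b 0 → ϑ γ = 1)
    (F : Set H) {J : Type*} [Fintype J] [DecidableEq J] (f : J → H → ℂ) (hf : IsForms vol Γ F ϑ f)
    (κ : H → ℂ) (C : Set H) (hκ : IsTest κ C) (Λ : J → ℂ)
    (hΛ : ∀ j x, ∫ y, f j (x * y) * κ y ∂vol = Λ j * f j x) :
    (∀ μ : ℕ → R, (∀ i < r, IsDl O χ (μ i)) → ∀ g : H, IsSml h m b ρ N Q C g →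
      ∑ j, ‖Λ j‖ ^ 2 * ‖Wh ν D (ps χ h m r b v₀ μ ρ) r (f j) g‖ ^ 2 ≤ (∏ i ∈ Finset.range r, (ν i).real (D i)) *
        (∫ u, (starRingEnd ℂ) (ps χ h m r b v₀ μ ρ u) * kg vol κ g u ∂(uM ν r)).re) ∧
    (∀ μ : ℕ → R, (∀ i < r, IsDl O χ (μ i)) → ∀ (g t : H) (δ : ℕ → ℝ), IsScale ν r t δ →
      IsSml h m b ρ N Q C (t * g) →
      ∑ j, ‖Λ j‖ ^ 2 * ‖Wh ν D (ps χ h m r b v₀ μ ρ) r (f j) (t * g)‖ ^ 2 ≤
        (∏ i ∈ Finset.range r, δ i) * bnd ν D r vol κ C g) ∧
    (∀ (g : H) (n K : ℕ) (τ A : ℝ), n + 2 ≤ K → 0 ≤ τ → 0 < A → τ ≤ A ^ 2 →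
      ∀ (α : J → Fin (n + 1) → ℂ) (w : J → ℂ) (μ : ℕ → ℕ → R) (t : ℕ → H) (δ : ℕ → ℕ → ℝ),
      (∀ l, K - n ≤ l → l ≤ K → (∀ i < r, IsDl O χ (μ l i)) ∧ IsScale ν r (t l) (δ l) ∧
        IsSml h m b ρ N Q C (t l * g) ∧
        ∀ j, Wh ν D (ps χ h m r b v₀ (μ l) ρ) r (f j) (t l * g) =
          (Real.sqrt (∏ i ∈ Finset.range r, δ l i) : ℂ) * ht τ (α j) l * w j) →
      (1 - τ / A ^ 2) ^ 2 * ∑ j with ∃ i, A ≤ ‖α j i‖, ‖Λ j‖ ^ 2 * ‖w j‖ ^ 2 ≤
        ((1 + A) ^ n / A ^ K) ^ 2 * bnd ν D r vol κ C g) := by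
  have hK : Pool.Agent.H496.R8.IsK κ := ⟨hκ.meas, hκ.bdd, C, hκ.cpt, hκ.supp⟩
  refine ⟨fun μ hμ g hS => one hh hb hr hv hΓ h0r hν hχ hμ hϑ hf hK hκ.supp hΛ hS, fun μ hμ g t δ ht hS =>
    two hh hb hr hv hΓ h0r hν hχ hμ hϑ hf hK hκ.cpt hκ.supp hΛ ht hS,
    fun g n K τ A hn hτ hA hτA α w μ t δ hl => ?_⟩
  exact three hh hb hr hv hΓ h0r hν hχ hϑ hf hK hκ.cpt hκ.supp hΛ hτ hn (fun l h1 h2 => (hl l h1 h2).1)
    (fun l h1 h2 => (hl l h1 h2).2.1) (fun l h1 h2 => (hl l h1 h2).2.2.1) (fun l h1 h2 => (hl l h1 h2).2.2.2) hA hτA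

end Pool.Agent.Results.MP_08cfa9_nt.DensityClassical
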