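import Mathlib
import Pool.Agent.H496.R13.Mat
import Pool.Agent.H496.R11.Den

/-!
# Ramanujan on average for all Hecke operators at all places, for generic forms on all quasi-split groups

`R` is a commutative topological ring and `N : R → ℝ` a size function, for instance `R = K_∞`, `R = ∏_{v ∈ S} K_v` or the
adele ring of a global field `K`, with `N(x) = ∏_v |x_v|_v`. `H` is a topological group with a continuous homomorphism
`E` to the `m × m`-matrices over `R` (for a connected reductive group `G` over `K`: `H = G(R)`, or the elements of `G(R)`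
on which the rational characters of `G` have absolute value `1`), and `bl : {1, …, m} → ℕ` describes a flag, whose blocks
are the fibres of `bl`. `U ⊆ H` is the group of the elements which are `1` on and below the diagonal blocks. **If `G` is
quasi-split then there are such an `E` and a flag for which `U` is the unipotent radical of a Borel subgroup**; also the
unipotent radicals of all the other parabolic subgroups of all reductive groups are of this form.

`Γ ⊂ H` is a discrete group with the following level: for `bl j ≤ bl i` the number `γ_ij - δ_ij` is `0` or of size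
`≥ Q_ij`. For instance the elements of `G(𝓞_K)` with entries `γ_ij ∈ 𝔮` for `bl j < bl i`: then `Q_ij = N𝔮` for these
entries, and `Q_ij = 1` for the entries in the diagonal blocks by the product formula. `ψ` is a character of `U` which is
trivial on `Γ ∩ U`, `f_1, …, f_s` are orthonormal functions on `Γ \ H` (with a nebentypus `ϑ`), eigenfunctions of the
convolution with a test function `κ` with support in the compact set `C`, `f_j * κ = Λ_j f_j`, and
`W_j(g) = ∫_{(Γ ∩ U) \ U} ψ(u) f_j(ug) du`.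

**Theorem.** 1. Let `T f(y) = ∫ c(ω) f(y x(ω)) dτ(ω)` be an operator given by elements `x(ω) = u(ω) t(ω)` which commute
with `g`, with `u(ω) ∈ U` and `t(ω)` normalizing `U` (with modulus `δ`), and let `T f_j = z_j f_j`. If the `t(ω) g` are in the
range of the level (the matrices `y ∈ t g C C⁻¹ g⁻¹ t⁻¹` satisfy `N(y_ij - δ_ij) < Q_ij` for `bl j ≤ bl i`) then

`∑_j |Λ_j|² |z_j|² |W_j(g)|² ≤ (∫ |c(ω)| δ(t(ω))^{1/2} dτ)² · vol((Γ ∩ U) \ U) ∫_U |(κ^* * κ)(g⁻¹ u g)| du`.

2. Let `α_{p,j} ∈ ℂ^{n_p + 1}` (`p` in a finite set) with `max_i |α_{p,j,i}| ≥ A_{p,j} ≥ 1`, let `T_l` be such operators, with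
`T_l f_j = z_j ∏_p h_{l_p}(α_{p,j}) f_j` and `∫ |c_l| δ^{1/2} dτ_l ≤ B`, for all `l` with `K_p - n_p ≤ l_p ≤ K_p`. Then

`∑_j |Λ_j|² |z_j|² ∏_p A_{p,j}^{2(K_p - n_p)} |W_j(g)|² ≤ (2^{∑ n_p} B)² · vol((Γ ∩ U) \ U) ∫_U |(κ^* * κ)(g⁻¹ u g)| du`.

*Generic forms* (`U` is maximal, `ψ` generic, `G` quasi-split). The operators in 1 are all the Hecke operators, at all
places: if the `f_j` are right invariant under a maximal compact subgroup `K_p` (finite or archimedean place) and `T` is the
convolution with `φ ∈ C_c(K_p \ G(K_p) / K_p)` then by the Iwasawa decomposition `T f(y) = ∫_B φ(b) f(yb) db`, and the cost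
`∫_B |φ| δ^{1/2}` is the eigenvalue of `|φ|` in the representation induced from the trivial character, the spectral radius of
`|φ|` in the tempered spectrum. So for `φ ≥ 0` the Ramanujan bound `|z_j| ≤ ‖φ‖_{temp}` is valid on average over the generic
forms, for all quasi-split groups (also the exceptional ones), all global fields, all places jointly, up to the size
allowed by the level. (For a congruence subgroup with Iwahori factorization this includes the `U_p`-operators.) In 2 let
`V_p` be any representation of the dual group at the unramified place `p`, and `α_{p,j}` the eigenvalues of the Satake parameter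
of `f_j` on `V_p`. The operator whose eigenvalue is the character `h_l` of `Sym^l V_p` has nonnegative coefficients (Kato,
Lusztig) and so cost `dim Sym^l V_p = C(n_p + l, l)`. So 2 bounds all the powers `q_p^{l σ}` of the violation of the
Ramanujan conjecture, up to the level: the weighted number of the forms with an eigenvalue of absolute value `q^σ` is
`≪ (N𝔮)^{-cσ}` with `c > 0` depending on `G` and `V_p` only.

*Other flags.* For the unipotent radical `U` of a parabolic subgroup `P` the cost is the eigenvalue of `|φ|` in the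
representation induced from the trivial representation of `P`. So all forms with a non zero Fourier coefficient along `U`
satisfy on average the corresponding bound. For instance for all Siegel cusp forms of degree 2, generic or not (`P` the
Siegel parabolic), this is the bound `q^{1/2}` for the Satake parameters, which is attained by the lifts of Saito and
Kurokawa, where the Ramanujan conjecture is false.

Compared to `MP_08cfa9_nt.HeckeClassical` the level is in all the entries below the blocks (not only in the last row), but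
the group is arbitrary. Proof: if `γ ∈ Γ` contributes to the Poincaré series of `κ` then `γ = u' y u` with `y` in
`t g C C⁻¹ g⁻¹ t⁻¹`, and starting at the lower left corner `γ_ij = y_ij = δ_ij` for `bl j ≤ bl i`; so only `γ ∈ U`
remains: `∑_j |Λ_j W_j(tg)|² ≤ δ(t) B_g`. Since `|W_j(utg)| = |W_j(tg)|`, the integral `z_j W_j(g) = ∫ c(ω) W_j(x(ω) g) dτ`
can be estimated by the inequality of Minkowski in the Hilbert space `ℂ^J` with the weights `|Λ_j|²`.
-/

set_option autoImplicit false

namespace Pool.Agent.Results.MP_08cfa9_nt.HeckeAllGroups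

open MeasureTheory Pool.Agent.H496.R13
open Pool.Agent.H496.R9 (IsForms IsLayer IsTest hs)
open scoped Classical

theorem result
    -- the matrix group `H` over `R`, the flag and the group `U`
    {R H : Type*} [CommRing R] [TopologicalSpace R] [T2Space R] [Group H] [TopologicalSpace H] [IsTopologicalGroup H]
    [SecondCountableTopology H] [T2Space H] [MeasurableSpace H] [BorelSpace H] {m : ℕ}
    (E : H →* Matrix (Fin m) (Fin m) R) (hE : ∀ i j, Continuous fun x => E x i j) (bl : Fin m → ℕ)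
    -- the discrete group `Γ` and its level
    (N : R → ℝ) (Q : Fin m → Fin m → ℝ) (Γ : Subgroup H) [Countable Γ]
    (hdisc : ∀ C : Set H, IsCompact C → (C ∩ Γ).Finite) (hΓ : IsLev E bl Γ N Q)
    -- the Haar measure of `U` and the character
    (ν : Measure H) [SigmaFinite ν] [IsFiniteMeasureOnCompacts ν] (D : Set H) (hν : IsLayer Γ (UB E bl) ν D)
    (ψ : H → ℂ) (hψ : IsChr Γ (UB E bl) ψ)
    -- the forms and the test function
    (vol : Measure H) [SigmaFinite vol] [IsFiniteMeasureOnCompacts vol] [vol.IsMulLeftInvariant]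
    (ϑ : Γ →* Circle) (hϑ : ∀ γ : Γ, (γ : H) ∈ UB E bl → ϑ γ = 1)
    (F : Set H) {J : Type*} [Fintype J] [DecidableEq J] (f : J → H → ℂ) (hf : IsForms vol Γ F ϑ f)
    (κ : H → ℂ) (C : Set H) (hκ : IsTest κ C) (Λ : J → ℂ)
    (hΛ : ∀ j x, ∫ y, f j (x * y) * κ y ∂vol = Λ j * f j x) (g : H) {Ω : Type*} [MeasurableSpace Ω] :
    -- 1. all Hecke operators
    (∀ (τ : Measure Ω) [SFinite τ] (c : Ω → ℂ) (x t : Ω → H) (δ : Ω → ℝ) (z : J → ℂ),
      IsOp (UB E bl) ν τ c x t δ → (∀ j y, ∫ ω, c ω * f j (y * x ω) ∂τ = z j * f j y) →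
      (∀ ω, c ω ≠ 0 → Commute g (x ω) ∧ IsSml E bl N Q C (t ω * g)) →
      ∑ j, ‖Λ j‖ ^ 2 * ‖z j‖ ^ 2 * ‖Wh ν D ψ (f j) g‖ ^ 2 ≤ cost τ c δ ^ 2 * bd ν D vol κ g) ∧
    -- 2. large eigenvalues, at several places
    (∀ {ι : Type*} [Fintype ι] (n K : ι → ℕ), (∀ p, n p ≤ K p) → ∀ (α : (p : ι) → J → Fin (n p + 1) → ℂ)
      (A : ι → J → ℝ), (∀ p j, 1 ≤ A p j ∧ ∃ i, A p j ≤ ‖α p j i‖) → ∀ (z : J → ℂ) (B : ℝ)
      (τ : (ι → ℕ) → Measure Ω) [∀ l, SFinite (τ l)] (c : (ι → ℕ) → Ω → ℂ) (x t : (ι → ℕ) → Ω → H)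
      (δ : (ι → ℕ) → Ω → ℝ),
      (∀ l : ι → ℕ, (∀ p, K p - n p ≤ l p ∧ l p ≤ K p) → IsOp (UB E bl) ν (τ l) (c l) (x l) (t l) (δ l) ∧
        (∀ j y, ∫ ω, c l ω * f j (y * x l ω) ∂(τ l) = (z j * ∏ p, hs (α p j) (l p)) * f j y) ∧
        (∀ ω, c l ω ≠ 0 → Commute g (x l ω) ∧ IsSml E bl N Q C (t l ω * g)) ∧ cost (τ l) (c l) (δ l) ≤ B) →
      ∑ j, ‖Λ j‖ ^ 2 * ‖z j‖ ^ 2 * (∏ p, A p j ^ (K p - n p)) ^ 2 * ‖Wh ν D ψ (f j) g‖ ^ 2 ≤
        (2 ^ (∑ p, n p) * B) ^ 2 * bd ν D vol κ g) := by
  have hK : Pool.Agent.H496.R8.IsK κ := ⟨hκ.meas, hκ.bdd, C, hκ.cpt, hκ.supp⟩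
  have h1 : ∀ (τ : Measure Ω) [SFinite τ] (c : Ω → ℂ) (x t : Ω → H) (δ : Ω → ℝ) (z : J → ℂ),
      IsOp (UB E bl) ν τ c x t δ → (∀ j y, ∫ ω, c ω * f j (y * x ω) ∂τ = z j * f j y) →
      (∀ ω, c ω ≠ 0 → Commute g (x ω) ∧ IsSml E bl N Q C (t ω * g)) →
      ∑ j, ‖Λ j‖ ^ 2 * ‖z j‖ ^ 2 * ‖Wh ν D ψ (f j) g‖ ^ 2 ≤ cost τ c δ ^ 2 * bd ν D vol κ g :=
    fun τ _ c x t δ z hop hz hg => ops_flag hE hdisc hΓ hν hψ hϑ hf hK hκ.supp hΛ hop hz hg
  refine ⟨h1, ?_⟩
  intro ι _ n K hnK α A hA z B τ _ c x t δ hT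
  have h2 := Pool.Agent.H496.R11.den (w := fun j => ‖Λ j‖ ^ 2 * ‖z j‖ ^ 2 * ‖Wh ν D ψ (f j) g‖ ^ 2)
    (B := B ^ 2 * bd ν D vol κ g) hnK hA (fun j => by positivity) (fun l hl => ?_)
  · refine le_trans (le_of_eq ?_) (h2.trans (le_of_eq ?_))
    · exact Finset.sum_congr rfl fun j _ => by ring
    · ring
  · obtain ⟨a1, a2, a3, a4⟩ := hT l hl
    have h3 := h1 (τ l) (c l) (x l) (t l) (δ l) (fun j => z j * ∏ p, hs (α p j) (l p)) a1 a2 a3
    have h4 : 0 ≤ cost (τ l) (c l) (δ l) :=
      integral_nonneg fun ω => mul_nonneg (norm_nonneg _) (Real.sqrt_nonneg _)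
    have h5 : 0 ≤ bd ν D vol κ g := mul_nonneg measureReal_nonneg (integral_nonneg fun _ => norm_nonneg _)
    refine le_trans (le_of_eq ?_) (h3.trans (mul_le_mul_of_nonneg_right (pow_le_pow_left₀ h4 a4 2) h5))
    refine Finset.sum_congr rfl fun j _ => ?_
    rw [norm_mul, norm_prod]
    ring

end Pool.Agent.Results.MP_08cfa9_nt.HeckeAllGroups
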