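import Mathlib
import Pool.Agent.H496.R11.Cls
import Pool.Agent.H496.R11.Den

/-!
# Ramanujan on average for all Hecke operators, for generic forms on all classical groups over all global fields

`R` is a commutative topological ring with an involution (possibly trivial), `O ⊂ R` a discrete subring, for instance
`(R, O) = (K_∞, 𝓞_K)`, `(∏_{v ∈ S} K_v, 𝓞_{K,S})` or `(𝔸_K, K)` for a global field `K` (for unitary groups `K` is a
quadratic extension and the involution its conjugation). `M` is a free `R`-module of rank `m` with an `ε`-hermitian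
form `h`, the orthogonal sum of `r` hyperbolic planes `⟨e_i, f_i⟩` and of a space `V_0`, and `H` is a closed group of
isometries of `M` which contains the Eichler transformations. So `H` is a symplectic, orthogonal or unitary group of
any rank. `U = N_{r-1} ⋯ N_0` is the unipotent radical of the Borel subgroup `B` (the stabilizer of the flag
`e_0, e_1, …`) and `ψ(u) = χ(∑_{i<r-1} μ_i h(e_{i+1}, u f_i) + μ_{r-1} h(v₀, u f_{r-1}))` is a generic character.

`Γ ⊂ H` is discrete with entries in `O`, contains the integral unipotent elements, and only the last row is restricted: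
the entries `c_j = h(e_0, γ b_j)` are `0` or of size `≥ Q_j` for `j < m - 1`. For instance
`Γ = {γ : c_j ∈ 𝔮 (0 < j < m - 1), c_0 ∈ 𝔮²}` with `Q_j = N𝔮`, `Q_0 = N𝔮²`.

Let `f_1, …, f_s` be orthonormal functions on `Γ \ H` (with a nebentypus `ϑ`) which are eigenfunctions of the convolution
with a test function `κ` supported in the compact set `C`, `f_j * κ = Λ_j f_j`, and let
`W_j(g) = ∫_{(Γ ∩ U) \ U} ψ(u) f_j(ug) du` be the Whittaker coefficients.

**Theorem.** 1. Let `T f(y) = ∫ c(ω) f(y x(ω)) dτ(ω)` be an operator given by elements `x(ω) = u(ω) t(ω)` of the Borel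
subgroup which commute with `g`, and let `T f_j = z_j f_j`. If the `t(ω) g` are in the range of the level (the last rows
`c` of `t g C C⁻¹ g⁻¹ t⁻¹` satisfy `N(c_j) < Q_j` for `j < m - 1` and `N(c_{m-1} - 1) < 1`), then

`∑_j |Λ_j|² |z_j|² |W_j(g)|² ≤ (∫ |c(ω)| δ(t(ω))^{1/2} dτ)² · vol((Γ ∩ U) \ U) ∫_U |(κ^* * κ)(g⁻¹ u g)| du`.

2. Let `α_{p,j} ∈ ℂ^{n_p + 1}` (`p` in a finite set) with `max_i |α_{p,j,i}| ≥ A_{p,j} ≥ 1`, let `T_l` be such operators, with
`T_l f_j = z_j ∏_p h_{l_p}(α_{p,j}) f_j` and `∫ |c_l| δ^{1/2} dτ_l ≤ B`, for all `l` with `K_p - n_p ≤ l_p ≤ K_p`. Then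

`∑_j |Λ_j|² |z_j|² ∏_p A_{p,j}^{2(K_p - n_p)} |W_j(g)|² ≤ (2^{∑ n_p} B)² · vol((Γ ∩ U) \ U) ∫_U |(κ^* * κ)(g⁻¹ u g)| du`.

The operators in 1 are all the Hecke operators, at all places. If the `f_j` are right invariant under a maximal compact
subgroup `K_p` (finite or archimedean place) and `T` is the convolution with `φ ∈ C_c(K_p \ H_p / K_p)`, then by the Iwasawa
decomposition `T f(y) = ∫_B φ(b) f(yb) db` (a finite sum over cosets for finite `p`), and the cost
`∫_B |φ| δ^{1/2}` is the eigenvalue of `|φ|` in the representation induced from the trivial character of the torus, that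
is the spectral radius of `|φ|` in the tempered spectrum. So for all `φ ≥ 0` the eigenvalues satisfy the Ramanujan bound
`|z_j| ≤ ‖φ‖_{temp}` on average over the generic forms, up to the size of `φ` allowed by the level, and it is valid jointly
at several places (products of operators). For a congruence subgroup `K_p` with Iwahori factorization the operators
`K_p t K_p`, `t` contracting, have elements in `B` too: so the bound is valid for the `U_p`-eigenvalues of ramified forms.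

In 2 let `V_p` be any representation of the dual group at the unramified place `p`, and `α_{p,j}` the eigenvalues of the Satake
parameter of `f_j` on `V_p`. The operator whose eigenvalue is the character `h_l` of `Sym^l V_p` has nonnegative
coefficients (Kato, Lusztig) and so cost `dim Sym^l V_p = C(n_p + l, l)`, and its elements `t` have `t ≤ l λ_p`, `λ_p` the
highest weight of `V_p`. So 2 is a density theorem with all powers of the largest eigenvalue, in all directions `λ_p`, at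
several places, with an additional operator `z_j` (for instance at the archimedean places). For the standard
representation, `max |α_{p,j,i}| = q^σ` and `q^K ~ N𝔮` it is the bound `(N𝔮)^{-2σ+ε}` for the weighted number of forms,
that is the density hypothesis of Sarnak: `vol^{1-σ/σ_triv+ε}`.

Proof: `∑_j |Λ_j|² |W_j(tg)|² ≤ δ(t) B_g` since the level makes all cells of the Kuznetsov formula vanish except the
identity. The function `u ↦ ψ(v) W(v x)` shows that `|W_j(u t g)| = |W_j(t g)|`, so `z_j W_j(g) = ∫ c(ω) W_j(x(ω) g) dτ`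
can be estimated by the inequality of Minkowski in the Hilbert space `ℂ^J` with the weights `|Λ_j|²`. The formula of
Casselman and Shalika is not needed.
-/

set_option autoImplicit false

namespace Pool.Agent.Results.MP_08cfa9_nt.HeckeClassical

open MeasureTheory Pool.Agent.H496.R9 Pool.Agent.H496.R11
open scoped Classical

theorem result
    -- the ring `R` with involution, the module `M` with the form `h`, and the group `H` of isometries
    {R M H : Type*} [CommRing R] [StarRing R] [TopologicalSpace R] [IsTopologicalRing R] [T2Space R]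
    [AddCommGroup M] [Module R M] [Group H] [TopologicalSpace H] [IsTopologicalGroup H] [SecondCountableTopology H]
    [T2Space H] [MeasurableSpace H] [BorelSpace H] (ε : R) (h : M → M → R) (hh : IsForm ε h) (m r : ℕ) (h0r : 0 < r)
    (b d : ℕ → M) (hb : IsBasis ε h m r b d) (ρ : H →* (M →ₗ[R] M)) (hr : IsRep ε h m r b d ρ)
    (v₀ : M) (hv : IsEnd h m r b v₀ ρ)
    -- the arithmetic group `Γ`
    (O : Subring R) (N : R → ℝ) (Q : ℕ → ℝ) (Γ : Subgroup H) [Countable Γ] (hΓ : IsLev ε h m r b d v₀ ρ O Γ N Q)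
    -- the measures of the unipotent groups
    (ν : ℕ → Measure H) [∀ k, SigmaFinite (ν k)] [∀ k, IsFiniteMeasureOnCompacts (ν k)] (D : ℕ → Set H)
    (hν : IsMeas h m r b ρ Γ ν D)
    -- the character, the forms and the test function
    (χ : AddChar R Circle) (hχ : Continuous χ) (μ : ℕ → R) (hμ : ∀ i < r, IsDl O χ (μ i))
    (vol : Measure H) [SigmaFinite vol] [IsFiniteMeasureOnCompacts vol] [vol.IsMulLeftInvariant]
    (ϑ : Γ →* Circle) (hϑ : ∀ γ : Γ, ρ γ (b 0) = b 0 → ϑ γ = 1)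
    (F : Set H) {J : Type*} [Fintype J] [DecidableEq J] (f : J → H → ℂ) (hf : IsForms vol Γ F ϑ f)
    (κ : H → ℂ) (C : Set H) (hκ : IsTest κ C) (Λ : J → ℂ)
    (hΛ : ∀ j x, ∫ y, f j (x * y) * κ y ∂vol = Λ j * f j x) (g : H) {Ω : Type*} [MeasurableSpace Ω] :
    -- 1. all Hecke operators
    (∀ (τ : Measure Ω) [SFinite τ] (c : Ω → ℂ) (x t : Ω → H) (δ : Ω → ℕ → ℝ) (z : J → ℂ),
      IsOp (NN ρ h b m r) ν r τ c x t δ → (∀ j y, ∫ ω, c ω * f j (y * x ω) ∂τ = z j * f j y) →
      (∀ ω, c ω ≠ 0 → Commute g (x ω) ∧ IsSml h m b ρ N Q C (t ω * g)) →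
      ∑ j, ‖Λ j‖ ^ 2 * ‖z j‖ ^ 2 * ‖Wh ν D (ps χ h m r b v₀ μ ρ) r (f j) g‖ ^ 2 ≤
        cost r τ c δ ^ 2 * bd ν D r vol κ g) ∧
    -- 2. large eigenvalues, in all directions, at several places
    (∀ {ι : Type*} [Fintype ι] (n K : ι → ℕ), (∀ p, n p ≤ K p) → ∀ (α : (p : ι) → J → Fin (n p + 1) → ℂ)
      (A : ι → J → ℝ), (∀ p j, 1 ≤ A p j ∧ ∃ i, A p j ≤ ‖α p j i‖) → ∀ (z : J → ℂ) (B : ℝ)
      (τ : (ι → ℕ) → Measure Ω) [∀ l, SFinite (τ l)] (c : (ι → ℕ) → Ω → ℂ) (x t : (ι → ℕ) → Ω → H)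
      (δ : (ι → ℕ) → Ω → ℕ → ℝ),
      (∀ l : ι → ℕ, (∀ p, K p - n p ≤ l p ∧ l p ≤ K p) → IsOp (NN ρ h b m r) ν r (τ l) (c l) (x l) (t l) (δ l) ∧
        (∀ j y, ∫ ω, c l ω * f j (y * x l ω) ∂(τ l) = (z j * ∏ p, hs (α p j) (l p)) * f j y) ∧
        (∀ ω, c l ω ≠ 0 → Commute g (x l ω) ∧ IsSml h m b ρ N Q C (t l ω * g)) ∧ cost r (τ l) (c l) (δ l) ≤ B) →
      ∑ j, ‖Λ j‖ ^ 2 * ‖z j‖ ^ 2 * (∏ p, A p j ^ (K p - n p)) ^ 2 *
        ‖Wh ν D (ps χ h m r b v₀ μ ρ) r (f j) g‖ ^ 2 ≤ (2 ^ (∑ p, n p) * B) ^ 2 * bd ν D r vol κ g) := by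
  have hK : Pool.Agent.H496.R8.IsK κ := ⟨hκ.meas, hκ.bdd, C, hκ.cpt, hκ.supp⟩
  have h1 : ∀ (τ : Measure Ω) [SFinite τ] (c : Ω → ℂ) (x t : Ω → H) (δ : Ω → ℕ → ℝ) (z : J → ℂ),
      IsOp (NN ρ h b m r) ν r τ c x t δ → (∀ j y, ∫ ω, c ω * f j (y * x ω) ∂τ = z j * f j y) →
      (∀ ω, c ω ≠ 0 → Commute g (x ω) ∧ IsSml h m b ρ N Q C (t ω * g)) →
      ∑ j, ‖Λ j‖ ^ 2 * ‖z j‖ ^ 2 * ‖Wh ν D (ps χ h m r b v₀ μ ρ) r (f j) g‖ ^ 2 ≤
        cost r τ c δ ^ 2 * bd ν D r vol κ g := fun τ _ c x t δ z hop hz hg =>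
    ops hh hb hr hv hΓ h0r hν hχ hμ hϑ hf hK hκ.supp hΛ hop hz hg
  refine ⟨h1, ?_⟩
  intro ι _ n K hnK α A hA z B τ _ c x t δ hT
  have h2 := den (w := fun j => ‖Λ j‖ ^ 2 * ‖z j‖ ^ 2 * ‖Wh ν D (ps χ h m r b v₀ μ ρ) r (f j) g‖ ^ 2)
    (B := B ^ 2 * bd ν D r vol κ g) hnK hA (fun j => by positivity) (fun l hl => ?_)
  · refine le_trans (le_of_eq ?_) (h2.trans (le_of_eq ?_))
    · exact Finset.sum_congr rfl fun j _ => by ring
    · ring
  · obtain ⟨a1, a2, a3, a4⟩ := hT l hl
    have h3 := h1 (τ l) (c l) (x l) (t l) (δ l) (fun j => z j * ∏ p, hs (α p j) (l p)) a1 a2 a3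
    have h4 : 0 ≤ cost r (τ l) (c l) (δ l) :=
      integral_nonneg fun ω => mul_nonneg (norm_nonneg _) (Real.sqrt_nonneg _)
    refine le_trans (le_of_eq ?_) (h3.trans (mul_le_mul_of_nonneg_right (pow_le_pow_left₀ h4 a4 2)
      (bd_nonneg r g)))
    refine Finset.sum_congr rfl fun j _ => ?_
    rw [norm_mul, norm_prod]
    ring

end Pool.Agent.Results.MP_08cfa9_nt.HeckeClassical
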