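import Pool.Agent.H486.LP.FullX
import Pool.Agent.H486.LP.NearE
import Pool.Agent.H486.LS.Full

/-!
# The density hypothesis at a finite place in all aspects, log-free

Let `Γ ≤ SL(2, ℤ)` be any congruence subgroup, of index `n`, containing `Γ(N)`, and `p` a prime
which does not divide `N`. Let `f_1, ..., f_k` be pairwise orthogonal Maass cusp forms for `Γ`, of
Laplace eigenvalues at most `1/4 + T²`, which are eigenfunctions of the Hecke operator `T(p²)` with
eigenvalues `p (p ^ (2 s_i) + 1 + p ^ (-2 s_i))`. The Satake parameters at `p` of the automorphic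
representation generated by `f_i` are `p ^ (± s_i)`, up to a common factor of absolute value one; the
component at `p` is tempered if `s_i` is imaginary, and not tempered if `s_i` is real and not zero.
Let `M = n (1 + T)²`, the order of magnitude of the number of all forms in the family (Weyl's law).
Suppose that `s_i` is real and `≥ 0` or imaginary with `|s_i| ≤ A / log M`, `A ≥ 1`. Then for
`c, δ > 0`, `c + 4 δ < 2`,

`∑_i M ^ (c Re s_i) ≤ C A³ M (log p / log M)³` for `p ≤ M ^ δ`,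

with a constant `C` which depends only on `c` and `δ`: uniformly in all congruence subgroups
(`SL(2, ℤ)` included), `T ≥ 0` and `p`. In particular

* at most `C M ^ (1 - c α) (log p / log M)³` of the forms have `s_i ≥ α`, uniformly in `α ≥ 0`: the
  density hypothesis of Sarnak and Xue at a finite place, for the level and the eigenvalue, without
  the loss of `M ^ ε`;
* the number of all forms not tempered at `p`, together with the tempered ones in the window
  `|s_i| ≤ A / log M` at the edge of the spectrum, is at most the order of magnitude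
  `A³ M (log p / log M)³` given by the Weyl law and the Plancherel measure of `p` for the window.

The second part of the theorem follows by summation over `p`, and from the same theorem at infinity:
almost all forms, all but `O(M (log M) ^ (-a))`, are tempered at infinity and at all the primes
`p ≤ (log M) ^ b`, `p ∤ N`, simultaneously, if `a + b < 3`; and at all the primes `p ≤ M ^ δ`, `p ∤ N`,
simultaneously, their Satake parameters are in absolute value at most
`p ^ (κ log p / log M) = exp (κ (log p)² / log M)`, if `1 / κ + 4 δ < 2`. This is `1 + o(1)` for all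
`p ≤ exp (o(√(log M)))`, and less than `p ^ (7 / 64)` for all `p ≤ M ^ (1 / 7)`.

The third part: the number of the forms in a window `|v - u| ≤ w` of the tempered spectrum,
`s_i = i v / log p`, is at most of the order `M w (w² + sin² u)` given by the Weyl law and the
Plancherel measure of `p`, for all windows with `w ≥ log p / log M`.

Proof. (a) Amplified pretrace inequality (a large sieve inequality
`∑_i |∑_{m ≤ K} α_m x_i(m)|² ≤ C M ∑_m α_m²`, `x_i(m)` the eigenvalue of `p ^ (-m) T(p ^ (2 m))`,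
`4 p ^ (2 K) ≤ M ^ (1 / 2)`, in the third part): the operator `(∑_{m ≤ K} p ^ (-m) T(p ^ (2 m))) ∘ A`,
`A` the average over a hyperbolic ball of radius `ρ = 1 / (2 (1 + T))`, has on `f_i` the eigenvalue
`≫ (K + 1)² p ^ (2 (1 - ε) K s_i)`; the structure constants of the Hecke algebra; `p ^ (2 K)` is as
large as `M ^ (1 - κ)`. (b) At least half of the mass of a cusp form is below the height
`(2 + T²) h` in each cusp of width `h`. (c) The matrices `E` of determinant `Q²`, `Q ≤ M ^ (1 - κ)`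
prime to `N`, which move a point `z` of the fundamental domain by at most `2 ρ`: for given trace `t` and
`m` dividing `E` modulo scalars the sum of the areas of the sets of such `z` is at most
`M ^ ε (ρ Q)² / (m w)`, `w² = max (|4 Q² - t²|, (ρ Q)²)` (representations by quadratic forms of
discriminant `t² - 4 Q²`). (d) The number of the fixed points of `E / Q` (modulo `N`) on the cosets of
`Γ`, summed with these weights over the `E` with traces in an interval of length `≤ n ^ (1 - κ)`, is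
controlled by the number of the elements of the image of `Γ` modulo `N` with trace in an interval.
When `n` is close to the level this rests on cancellation in `∑_h e(a Q tr h / N)` over the image of
`Γ` modulo `N`, proved by duality, complete sums over `SL(2, ℤ/N)` and Kloosterman's bound. The
intervals of length `ρ² Q ≤ n ^ (1 - κ)` cover the traces.
-/

set_option autoImplicit false

open CongruenceSubgroup
open scoped MatrixGroups ComplexConjugate Modular

namespace Pool.Agent.Results.MP_08cfa9_nt.LogFreeDensityFinitePlace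

/-- `f` is a Maass cusp form for `Γ` with eigenvalue `μ` (as a function on the upper half plane). -/
structure IsMaassCuspForm (Γ : Subgroup SL(2, ℤ)) (μ : ℝ) (f : ℂ → ℂ) : Prop where
  /-- smoothness -/
  smooth : ContDiffOn ℝ (⊤ : ℕ∞) f {w : ℂ | 0 < w.im}
  /-- invariance -/
  inv : ∀ γ ∈ Γ, ∀ z : UpperHalfPlane, f ((γ • z : UpperHalfPlane) : ℂ) = f (z : ℂ)
  /-- `-y² (f_xx + f_yy) = μ f` -/
  eq : ∀ z : UpperHalfPlane, -((z.im : ℂ) ^ 2) *
      (deriv (fun s : ℝ => deriv (fun t : ℝ => f ((t : ℂ) + (z.im : ℂ) * Complex.I)) s) z.re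
        + deriv (fun s : ℝ => deriv (fun t : ℝ => f ((z.re : ℂ) + (t : ℂ) * Complex.I)) s) z.im)
      = (μ : ℂ) * f (z : ℂ)
  /-- square integrability on `Γ \ ℍ` -/
  sqint : ∀ γ : SL(2, ℤ), MeasureTheory.IntegrableOn (fun w : ℂ => ‖f w‖ ^ 2 / w.im ^ 2)
    ((fun z : UpperHalfPlane => ((γ • z : UpperHalfPlane) : ℂ)) '' ModularGroup.fd)
  /-- vanishing at the cusps: if `γ T ^ h γ⁻¹ ∈ Γ`, so that `x ↦ f(γ (x + iy))` has period `h`, then
  its integral over a period is zero -/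
  cusp : ∀ (γ : SL(2, ℤ)) (h : ℕ), 0 < h → γ * ModularGroup.T ^ h * γ⁻¹ ∈ Γ → ∀ y : ℝ, 0 < y →
    ∫ x in (0 : ℝ)..h, f (((γ 0 0 : ℂ) * (x + y * Complex.I) + (γ 0 1 : ℂ)) /
      ((γ 1 0 : ℂ) * (x + y * Complex.I) + (γ 1 1 : ℂ))) = 0

/-- The matrices of the Hecke operator `T(Q²)` on `Γ ⊇ Γ(N)`, `Q` prime to `N`: the integral matrices
of determinant `Q²` which are congruent to `Q γ` modulo `N` for some `γ ∈ Γ`. -/
def heckeSet (Γ : Subgroup SL(2, ℤ)) (N Q : ℕ) : Set (Matrix (Fin 2) (Fin 2) ℤ) :=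
  {A | A.det = (Q : ℤ) ^ 2 ∧ ∃ γ ∈ Γ, ∀ i j, (N : ℤ) ∣ A i j - Q * γ i j}

/-- `S` is a set of representatives of `Γ \ heckeSet Γ N Q`. -/
structure IsRepresentatives (Γ : Subgroup SL(2, ℤ)) (N Q : ℕ)
    (S : Finset (Matrix (Fin 2) (Fin 2) ℤ)) : Prop where
  /-- a subset -/
  sub : ∀ A ∈ S, A ∈ heckeSet Γ N Q
  /-- one in every class -/
  ex : ∀ A ∈ heckeSet Γ N Q, ∃ B ∈ S, ∃ γ ∈ Γ, A = (γ : Matrix (Fin 2) (Fin 2) ℤ) * B
  /-- only one in every class -/
  uniq : ∀ A ∈ S, ∀ B ∈ S, (∃ γ ∈ Γ, A = (γ : Matrix (Fin 2) (Fin 2) ℤ) * B) → A = B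

/-- `f` is an eigenfunction of the Hecke operator `T(p²)`,
`(T(p²) f)(z) = ∑_{A ∈ Γ \ heckeSet Γ N p} f (A z)`, with eigenvalue
`p (p ^ (2 s) + 1 + p ^ (-2 s))`. -/
def IsHeckeEigenfunction (Γ : Subgroup SL(2, ℤ)) (N p : ℕ) (s : ℂ) (f : ℂ → ℂ) : Prop :=
  ∀ S : Finset (Matrix (Fin 2) (Fin 2) ℤ), IsRepresentatives Γ N p S → ∀ z : UpperHalfPlane,
    ∑ A ∈ S, f (((A 0 0 : ℂ) * z + (A 0 1 : ℂ)) / ((A 1 0 : ℂ) * z + (A 1 1 : ℂ))) =
      (p * ((p : ℂ) ^ (2 * s) + 1 + (p : ℂ) ^ (-(2 * s)))) * f z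

/-- The Petersson inner product on `Γ \ ℍ`, for the measure `dx dy / y²`: the translates of the
standard fundamental domain of `SL(2, ℤ)` by representatives of `Γ \ SL(2, ℤ)` form a fundamental
domain of `Γ`. -/
noncomputable def petersson (Γ : Subgroup SL(2, ℤ)) (f g : ℂ → ℂ) : ℂ :=
  ∑' q : SL(2, ℤ) ⧸ Γ, ∫ z in (ModularGroup.fd : Set UpperHalfPlane),
    conj (f (q.out⁻¹ • z : UpperHalfPlane)) * g (q.out⁻¹ • z : UpperHalfPlane)

/-- The size `M = n (1 + T)²` of the family of the Maass cusp forms for `Γ`, of index `n`, with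
Laplace eigenvalues at most `1/4 + T²`. -/
noncomputable def size (Γ : Subgroup SL(2, ℤ)) (T : ℝ) : ℝ := (Γ.index : ℝ) * (1 + T) ^ 2

/-- **The log-free density theorem at a finite place, in all aspects.** Let `Γ ⊇ Γ(N)` be a
congruence subgroup of `SL(2, ℤ)`, of index `n`, and `f_i` pairwise orthogonal nonzero Maass cusp forms
for `Γ` with Laplace eigenvalues in `[0, 1/4 + T²]`; `M = n (1 + T)²`.

(1) For `c, δ > 0` with `c + 4 δ < 2` there is `C` such that for all `T ≥ 0`, `A ≥ 1`, all `Γ`, all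
primes `p ≤ M ^ δ` which do not divide `N`, if the `f_i` are eigenfunctions of `T(p²)` with eigenvalues
`p (p ^ (2 s_i) + 1 + p ^ (-2 s_i))`, where `s_i ≥ 0` is real, or `s_i` is imaginary with
`|s_i| log M ≤ A`, then `∑_i M ^ (c Re s_i) ≤ C A³ M (log p / log M)³`.

(2) For `a, b, κ, δ > 0` with `a + b < 3`, `1 / κ + 4 δ < 2` there are `C`, `M₀` such that for all `T ≥ 0`
and all `Γ` with `M ≥ M₀` all but at most `C M (log M) ^ (-a)` of the `f_i` have Laplace eigenvalue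
greater than `1/4` and, for all the primes `p ≤ M ^ δ` which do not divide `N`, no `T(p²)`-eigenvalue
`p (p ^ (2 s) + 1 + p ^ (-2 s))` with `s ≥ 0` real, except possibly if `p > (log M) ^ b` and
`s < κ log p / log M`.

(3) There is `C` such that for all `T ≥ 0`, all `Γ`, all primes `p` which do not divide `N`, all `u` in
`[0, π / 2]` and all `w ≥ log p / log M` at most `C M w (w² + sin² u)` of the `f_i` are eigenfunctions of
`T(p²)` with an eigenvalue `p (1 + 2 cos (2 v))`, `|v - u| ≤ w`. -/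
theorem result :
    (∀ c δ : ℝ, 0 < c → 0 < δ → c + 4 * δ < 2 → ∃ C : ℝ, 0 < C ∧
      ∀ (T A : ℝ), 0 ≤ T → 1 ≤ A → ∀ (Γ : Subgroup SL(2, ℤ)) (N : ℕ), 0 < N → Gamma N ≤ Γ →
        ∀ p : ℕ, p.Prime → ¬ p ∣ N → (p : ℝ) ≤ size Γ T ^ δ →
        ∀ (k : ℕ) (μ : Fin k → ℝ) (s : Fin k → ℂ) (f : Fin k → ℂ → ℂ),
          (∀ i, 0 ≤ μ i ∧ μ i ≤ 1 / 4 + T ^ 2) →
          (∀ i, ((s i).im = 0 ∧ 0 ≤ (s i).re) ∨
            ((s i).re = 0 ∧ |(s i).im| * Real.log (size Γ T) ≤ A)) →
          (∀ i, IsMaassCuspForm Γ (μ i) (f i)) → (∀ i, ∃ z : UpperHalfPlane, f i z ≠ 0) →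
          (∀ i, IsHeckeEigenfunction Γ N p (s i) (f i)) →
          (∀ i j, i ≠ j → petersson Γ (f i) (f j) = 0) →
            ∑ i, size Γ T ^ (c * (s i).re) ≤
              C * A ^ 3 * size Γ T * (Real.log p / Real.log (size Γ T)) ^ 3) ∧
    (∀ a b κ δ : ℝ, 0 < a → 0 < b → a + b < 3 → 0 < κ → 0 < δ → 1 / κ + 4 * δ < 2 →
      ∃ C M₀ : ℝ, 0 < C ∧
      ∀ T : ℝ, 0 ≤ T → ∀ (Γ : Subgroup SL(2, ℤ)) (N : ℕ), 0 < N → Gamma N ≤ Γ →
        M₀ ≤ size Γ T →
        ∀ (k : ℕ) (μ : Fin k → ℝ) (f : Fin k → ℂ → ℂ),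
          (∀ i, 0 ≤ μ i ∧ μ i ≤ 1 / 4 + T ^ 2) →
          (∀ i, IsMaassCuspForm Γ (μ i) (f i)) → (∀ i, ∃ z : UpperHalfPlane, f i z ≠ 0) →
          (∀ i j, i ≠ j → petersson Γ (f i) (f j) = 0) →
            (Nat.card {i : Fin k // μ i ≤ 1 / 4 ∨ ∃ p : ℕ, p.Prime ∧ ¬ p ∣ N ∧
                (p : ℝ) ≤ size Γ T ^ δ ∧ ∃ s : ℝ, 0 ≤ s ∧
                  ((p : ℝ) ≤ Real.log (size Γ T) ^ b ∨
                    κ * Real.log p / Real.log (size Γ T) ≤ s) ∧
                  IsHeckeEigenfunction Γ N p s (f i)} : ℝ) ≤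
              C * size Γ T * Real.log (size Γ T) ^ (-a)) ∧
    (∃ C : ℝ, 0 < C ∧
      ∀ T : ℝ, 0 ≤ T → ∀ (Γ : Subgroup SL(2, ℤ)) (N : ℕ), 0 < N → Gamma N ≤ Γ →
        ∀ p : ℕ, p.Prime → ¬ p ∣ N →
        ∀ u w : ℝ, 0 ≤ u → u ≤ Real.pi / 2 → Real.log p ≤ w * Real.log (size Γ T) →
        ∀ (k : ℕ) (μ : Fin k → ℝ) (f : Fin k → ℂ → ℂ),
          (∀ i, 0 ≤ μ i ∧ μ i ≤ 1 / 4 + T ^ 2) →
          (∀ i, IsMaassCuspForm Γ (μ i) (f i)) → (∀ i, ∃ z : UpperHalfPlane, f i z ≠ 0) →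
          (∀ i j, i ≠ j → petersson Γ (f i) (f j) = 0) →
            (Nat.card {i : Fin k // ∃ v : ℝ, |v - u| ≤ w ∧
                IsHeckeEigenfunction Γ N p (((v / Real.log p : ℝ) : ℂ) * Complex.I) (f i)} : ℝ) ≤
              C * size Γ T * (w * (w ^ 2 + Real.sin u ^ 2))) := by
  have conv : ∀ (Γ : Subgroup SL(2, ℤ)) (N p : ℕ) (s : ℂ) (f : ℂ → ℂ), p.Prime →
      IsHeckeEigenfunction Γ N p s f → Pool.Agent.H486.LP.HE Γ N p s f := by
    intro Γ N p s f hp hH S hS z
    have h1 := hH S ⟨hS.sub, hS.ex, hS.uniq⟩ z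
    rw [← h1]
    refine Finset.sum_congr rfl fun A hA => ?_
    rw [Pool.Agent.H486.LPp.P11.sQ_coe p A hp.pos (hS.sub A hA).1 z]
  have convM : ∀ (Γ : Subgroup SL(2, ℤ)) (μ : ℝ) (f : ℂ → ℂ), IsMaassCuspForm Γ μ f →
      Pool.Agent.H486.LP.MF Γ μ f :=
    fun Γ μ f h => ⟨⟨h.smooth, h.eq⟩, h.inv, h.sqint, h.cusp⟩
  have mono : ∀ (k : ℕ) (P Q : Fin k → Prop), (∀ i, P i → Q i) →
      (Nat.card {i : Fin k // P i} : ℝ) ≤ Nat.card {i : Fin k // Q i} := by
    intro k P Q h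
    have : Nat.card {i : Fin k // P i} ≤ Nat.card {i : Fin k // Q i} :=
      Nat.card_le_card_of_injective (fun i => ⟨i.1, h i.1 i.2⟩) fun a b hab =>
        Subtype.ext (congrArg (fun x : {i : Fin k // Q i} => x.1) hab)
    exact_mod_cast this
  have hsize : ∀ (Γ : Subgroup SL(2, ℤ)) (T : ℝ),
      size Γ T = Pool.Agent.H486.LP.MM Γ.index T := fun _ _ => rfl
  simp only [hsize]
  refine ⟨?_, ?_, ?_⟩
  · intro c δ hc0 hδ hcd
    obtain ⟨C, hC, h⟩ :=
      Pool.Agent.H486.LP.fullE Pool.Agent.H486.LP.geoZ c δ hc0 hδ hcd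
    refine ⟨C, hC, ?_⟩
    intro T A hT hA Γ N hN hΓ p hp hpN hpn k μ s f hμ hs hf hf0 hH horth
    exact h T A hT hA Γ N hN hΓ p hp ((Nat.Prime.coprime_iff_not_dvd hp).2 hpN) hpn k μ s f
      (fun i => (hμ i).1) (fun i => (hμ i).2) hs
      (fun i => convM Γ _ _ (hf i)) hf0 (fun i => conv Γ N p _ _ hp (hH i)) horth
  · intro a b κ δ ha hb hab hκ hδ hκδ
    obtain ⟨C, n₀, hC, h⟩ :=
      Pool.Agent.H486.LP.almost_allE Pool.Agent.H486.LP.geoZ a b κ δ ha hb hab hκ hδ hκδ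
    refine ⟨C, n₀, hC, ?_⟩
    intro T hT Γ N hN hΓ hn k μ f hμ hf hf0 horth
    refine le_trans (mono k _ _ ?_) (h T hT Γ N hN hΓ hn k μ f
      (fun i => (hμ i).1) (fun i => (hμ i).2) (fun i => convM Γ _ _ (hf i)) hf0 horth)
    rintro i (hi | ⟨p, hp, hpN, hpM, s, hs, hps, hH⟩)
    · exact Or.inl hi
    · exact Or.inr ⟨p, hp, hpN, hpM, s, hs, hps, conv Γ N p _ _ hp hH⟩
  · obtain ⟨C, hC, h⟩ := Pool.Agent.H486.LS.windowsCard Pool.Agent.H486.LP.geoZ
    refine ⟨C, hC, ?_⟩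
    intro T hT Γ N hN hΓ p hp hpN u w hu0 hu2 hw k μ f hμ hf hf0 horth
    refine le_trans (mono k _ _ ?_) (h T hT Γ N hN hΓ p hp
      ((Nat.Prime.coprime_iff_not_dvd hp).2 hpN) u w hu0 hu2 hw k μ f
      (fun i => (hμ i).1) (fun i => (hμ i).2) (fun i => convM Γ _ _ (hf i)) hf0 horth)
    rintro i ⟨v, hv, hH⟩
    exact ⟨v, hv, conv Γ N p _ _ hp hH⟩

end Pool.Agent.Results.MP_08cfa9_nt.LogFreeDensityFinitePlace
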